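import Pool.Agent.Run7.h77.RO.Defs

/-!
# Piece IND of the project RO (MP_e6c71b_co): the independence number
-/

set_option autoImplicit false

namespace Run7.h646.RO

open Finset Run7.h77.RO

lemma dm (w q c : ℕ) (hc : c < w) : (q * w + c) / w = q ∧ (q * w + c) % w = c := by
  have hw : 0 < w := by omega
  constructor
  · rw [add_comm, Nat.add_mul_div_right _ _ hw, Nat.div_eq_of_lt hc, zero_add]
  · rw [add_comm, Nat.add_mul_mod_self_right, Nat.mod_eq_of_lt hc]

lemma sum_blocks (n w : ℕ) (F : ℕ → ℝ) :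
    ∑ z ∈ range (n * w), F z = ∑ q ∈ range n, ∑ c ∈ range w, F (q * w + c) := by
  induction n with
  | zero => simp
  | succ n ih =>
    rw [Finset.sum_range_succ, ← ih, add_mul, one_mul, Finset.sum_range_add]

/-- the estimate in one block -/
lemma block_abs {G : Type} [Fintype G] [DecidableEq G] (f n e : G → ℝ) (big : G → Prop) (W E : ℝ)
    (hW : 0 ≤ W) (hE : 0 ≤ E) (he : ∀ g, 0 ≤ e g) (hn : ∀ g, 0 ≤ n g)
    (h1 : ∀ g, f g ≤ W + e g) (h2 : ∀ g, ¬ big g → f g ≤ n g * E)
    (h3 : ∀ g g', big g → big g' → g = g') :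
    ∑ g, f g ≤ W + (∑ g, n g) * E + ∑ g, e g := by
  classical
  by_cases hb : ∃ g, big g
  · obtain ⟨g0, hg0⟩ := hb
    have hle : ∀ g, f g ≤ (if g = g0 then W else 0) + n g * E + e g := by
      intro g
      have hnE : 0 ≤ n g * E := mul_nonneg (hn g) hE
      by_cases hg : g = g0
      · rw [if_pos hg]
        linarith [h1 g]
      · rw [if_neg hg]
        have hnb : ¬ big g := fun h => hg (h3 g g0 h hg0)
        linarith [h2 g hnb, he g]
    refine (Finset.sum_le_sum fun g _ => hle g).trans ?_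
    rw [Finset.sum_add_distrib, Finset.sum_add_distrib, Finset.sum_ite_eq' univ g0, Finset.sum_mul]
    simp
  · push Not at hb
    have hle : ∀ g, f g ≤ n g * E + e g := fun g => by linarith [h2 g (hb g), he g]
    refine (Finset.sum_le_sum fun g _ => hle g).trans ?_
    rw [Finset.sum_add_distrib, Finset.sum_mul]
    linarith

theorem t_IND : S_IND := by
  intro p B w v H ε hw hε hH X hX
  classical
  -- positions
  let Xp : Kd p → ℕ → Prop := fun k z => ∃ x ∈ X, kd x = k ∧ ps x = z
  have hind : ∀ k z k' z', Xp k z → Xp k' z' → ¬ A2 B w v H k z k' z' := by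
    rintro k z k' z' ⟨x, hx, rfl, rfl⟩ ⟨y, hy, rfl, rfl⟩ h
    exact hX x hx y hy h
  have hr : ∀ (i : Fin 3) (z : Fin (2 * B * w)), (Sum.inl (i, z) : V p B w v) ∈ X ↔ Xp (.r i) z := by
    intro i z
    constructor
    · intro h
      exact ⟨_, h, rfl, rfl⟩
    · rintro ⟨x, hx, h1, h2⟩
      rcases x with x | x | x | x | x | x | x | x <;> simp only [kd, Kd.r.injEq, reduceCtorEq] at h1
      simp only [ps] at h2
      have : x = (i, z) := Prod.ext h1 (Fin.ext h2)
      rwa [this] at hx
  have ha : ∀ (i : Fin p) (z : Fin (2 * B * w + w)),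
      (Sum.inr (Sum.inl (i, z)) : V p B w v) ∈ X ↔ Xp (.a i) z := by
    intro i z
    constructor
    · intro h
      exact ⟨_, h, rfl, rfl⟩
    · rintro ⟨x, hx, h1, h2⟩
      rcases x with x | x | x | x | x | x | x | x <;> simp only [kd, Kd.a.injEq, reduceCtorEq] at h1
      simp only [ps] at h2
      have : x = (i, z) := Prod.ext h1 (Fin.ext h2)
      rwa [this] at hx
  have hb : ∀ (i : Fin p) (z : Fin (2 * B * w + w)),
      (Sum.inr (Sum.inr (Sum.inl (i, z))) : V p B w v) ∈ X ↔ Xp (.b i) z := by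
    intro i z
    constructor
    · intro h
      exact ⟨_, h, rfl, rfl⟩
    · rintro ⟨x, hx, h1, h2⟩
      rcases x with x | x | x | x | x | x | x | x <;> simp only [kd, Kd.b.injEq, reduceCtorEq] at h1
      simp only [ps] at h2
      have : x = (i, z) := Prod.ext h1 (Fin.ext h2)
      rwa [this] at hx
  let F : Kd p → ℕ → ℝ := fun k z => if Xp k z then 1 else 0
  have hF0 : ∀ k z, 0 ≤ F k z := fun k z => by simp only [F]; split_ifs <;> norm_num
  have hF1 : ∀ k z, F k z ≤ 1 := fun k z => by simp only [F]; split_ifs <;> norm_num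
  -- label sets
  let lab : Kd p → ℕ → Finset (Fin w) := fun k q => univ.filter (fun c : Fin w => Xp k (q * w + c))
  have hlab : ∀ k q (c : Fin w), c ∈ lab k q ↔ Xp k (q * w + c) := by
    intro k q c; simp [lab]
  have hlabc : ∀ k q, ((lab k q).card : ℝ) = ∑ c ∈ range w, F k (q * w + c) := by
    intro k q
    rw [Finset.sum_range]
    simp only [lab, F, Finset.card_filter]
    push_cast
    rfl
  have hlw : ∀ k q, ((lab k q).card : ℝ) ≤ w := by
    intro k q
    have : (lab k q).card ≤ Fintype.card (Fin w) := Finset.card_le_univ _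
    rw [Fintype.card_fin] at this
    exact_mod_cast this
  have hw0 : (0 : ℝ) ≤ w := Nat.cast_nonneg _
  -- cardinality
  have hcard : (X.card : ℝ) ≤ ∑ i : Fin 3, ∑ z ∈ range (2 * B * w), F (.r i) z +
      (∑ i : Fin p, ∑ z ∈ range (2 * B * w + w), F (.a i) z +
      (∑ i : Fin p, ∑ z ∈ range (2 * B * w + w), F (.b i) z + (w + 6 * w * v))) := by
    have h1 : (X.card : ℝ) = ∑ x : V p B w v, if x ∈ X then (1 : ℝ) else 0 := by
      rw [Finset.sum_ite_mem, Finset.univ_inter, Finset.sum_const, nsmul_eq_mul, mul_one]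
    rw [h1, Fintype.sum_sum_type, Fintype.sum_sum_type, Fintype.sum_sum_type]
    have e1 : ∑ x : Fin 3 × Fin (2 * B * w), (if (Sum.inl x : V p B w v) ∈ X then (1 : ℝ) else 0) =
        ∑ i : Fin 3, ∑ z ∈ range (2 * B * w), F (.r i) z := by
      rw [Fintype.sum_prod_type]
      refine Finset.sum_congr rfl fun i _ => ?_
      rw [Finset.sum_range]
      refine Finset.sum_congr rfl fun z _ => ?_
      simp only [F, hr i z]
    have e2 : ∑ x : Fin p × Fin (2 * B * w + w),
        (if (Sum.inr (Sum.inl x) : V p B w v) ∈ X then (1 : ℝ) else 0) =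
        ∑ i : Fin p, ∑ z ∈ range (2 * B * w + w), F (.a i) z := by
      rw [Fintype.sum_prod_type]
      refine Finset.sum_congr rfl fun i _ => ?_
      rw [Finset.sum_range]
      refine Finset.sum_congr rfl fun z _ => ?_
      simp only [F, ha i z]
    have e3 : ∑ x : Fin p × Fin (2 * B * w + w),
        (if (Sum.inr (Sum.inr (Sum.inl x)) : V p B w v) ∈ X then (1 : ℝ) else 0) =
        ∑ i : Fin p, ∑ z ∈ range (2 * B * w + w), F (.b i) z := by
      rw [Fintype.sum_prod_type]
      refine Finset.sum_congr rfl fun i _ => ?_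
      rw [Finset.sum_range]
      refine Finset.sum_congr rfl fun z _ => ?_
      simp only [F, hb i z]
    rw [e1, e2, e3]
    gcongr
    refine (Finset.sum_le_sum (g := fun _ => (1 : ℝ)) fun x _ => ?_).trans ?_
    · split_ifs <;> norm_num
    · rw [Finset.sum_const, Finset.card_univ, nsmul_eq_mul, mul_one]
      simp only [Fintype.card_sum, Fintype.card_fin]
      have h2 : w + (w * v + (2 * w * v + (w * v - 2 * w + (2 * w * v - 2 * w)))) ≤
          w + 6 * w * v := by
        have h3 : w * v - 2 * w ≤ w * v := Nat.sub_le _ _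
        have h4 : 2 * w * v - 2 * w ≤ 2 * w * v := Nat.sub_le _ _
        have h5 : w * v + (2 * w * v + (w * v + 2 * w * v)) = 6 * w * v := by ring
        omega
      exact_mod_cast h2
  -- blocks
  have hsr : ∀ i : Fin 3, ∑ z ∈ range (2 * B * w), F (.r i) z =
      ∑ q ∈ range (2 * B), ((lab (.r i) q).card : ℝ) := by
    intro i
    rw [sum_blocks]
    exact Finset.sum_congr rfl fun q _ => (hlabc _ _).symm
  have hsa : ∀ i : Fin p, ∑ z ∈ range (2 * B * w + w), F (.a i) z ≤
      ∑ q ∈ range (2 * B), ((lab (.a i) q).card : ℝ) + w := by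
    intro i
    rw [Finset.sum_range_add, sum_blocks]
    refine add_le_add (le_of_eq (Finset.sum_congr rfl fun q _ => (hlabc _ _).symm)) ?_
    refine (Finset.sum_le_sum fun c _ => hF1 _ _).trans ?_
    simp
  have hsb : ∀ i : Fin p, ∑ z ∈ range (2 * B * w + w), F (.b i) z ≤
      ∑ q ∈ range (2 * B), ((lab (.b i) (q + 1)).card : ℝ) + w := by
    intro i
    rw [add_comm (2 * B * w) w, Finset.sum_range_add, add_comm, sum_blocks (2 * B) w
      (fun z => F (.b i) (w + z))]
    refine add_le_add (le_of_eq (Finset.sum_congr rfl fun q _ => ?_)) ?_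
    · rw [hlabc]
      refine Finset.sum_congr rfl fun c _ => ?_
      congr 1
      ring
    · refine (Finset.sum_le_sum fun c _ => hF1 _ _).trans ?_
      simp
  -- blocks with both sides nonempty
  let K : Fin p → Finset ℕ := fun i =>
    (range (2 * B)).filter (fun q => (lab (.a i) q).Nonempty ∧ (lab (.b i) (q + 1)).Nonempty)
  have hK : ∀ i, (K i).card ≤ 2 := by
    intro i
    by_cases hne : (K i).Nonempty
    · let m := (K i).min' hne
      have hm : m ∈ K i := Finset.min'_mem _ _
      have hsub : K i ⊆ {m, m + 1} := by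
        intro k hk
        have hmk : m ≤ k := Finset.min'_le _ _ hk
        rw [Finset.mem_insert, Finset.mem_singleton]
        by_contra hcon
        have h2 : m + 2 ≤ k := by omega
        obtain ⟨c', hc'⟩ := (Finset.mem_filter.mp hm).2.2
        obtain ⟨c, hc⟩ := (Finset.mem_filter.mp hk).2.1
        rw [hlab] at hc hc'
        refine hind _ _ _ _ hc hc' (Or.inl ?_)
        show (i = i ∧ (m + 1) * w + (c' : ℕ) ≤ k * w + (c : ℕ)) ∨ _
        left
        refine ⟨rfl, ?_⟩
        have h3 : (m + 2) * w ≤ k * w := Nat.mul_le_mul_right _ h2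
        have h4 : (m + 2) * w = (m + 1) * w + w := by ring
        have h5 := c'.isLt
        omega
      exact (Finset.card_le_card hsub).trans Finset.card_le_two
    · rw [Finset.not_nonempty_iff_eq_empty] at hne
      rw [hne]; simp
  -- sparse edges between large label sets
  have hHn : ∀ (S T : Finset (Fin w)), ε * w ≤ (S.card : ℝ) → ε * w ≤ (T.card : ℝ) →
      ∃ x ∈ S, ∃ y ∈ T, Hn H (x : ℕ) (y : ℕ) := by
    intro S T hS hT
    obtain ⟨x, hx, y, hy, hxy⟩ := hH S T hS hT
    exact ⟨x, hx, y, hy, x.isLt, y.isLt, hxy⟩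
  -- no two big label sets in different groups
  have brr : ∀ (q : ℕ) (i j : Fin 3), i ≠ j → ε * w ≤ ((lab (.r i) q).card : ℝ) →
      ε * w ≤ ((lab (.r j) q).card : ℝ) → False := by
    intro q i j hij h1 h2
    obtain ⟨x, hx, y, hy, hxy⟩ := hHn _ _ h1 h2
    rw [hlab] at hx hy
    obtain ⟨d1, m1⟩ := dm w q x x.isLt
    obtain ⟨d2, m2⟩ := dm w q y y.isLt
    refine hind _ _ _ _ hx hy (Or.inl (Or.inr ⟨hij, ?_, ?_⟩))
    · rw [d1, d2]
    · rw [m1, m2]; exact hxy
  have bra : ∀ (q : ℕ) (i : Fin 3) (j : Fin p), ε * w ≤ ((lab (.r i) q).card : ℝ) →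
      ε * w ≤ ((lab (.a j) q).card : ℝ) → False := by
    intro q i j h1 h2
    obtain ⟨x, hx, y, hy, hxy⟩ := hHn _ _ h1 h2
    rw [hlab] at hx hy
    obtain ⟨d1, m1⟩ := dm w q x x.isLt
    obtain ⟨d2, m2⟩ := dm w q y y.isLt
    refine hind _ _ _ _ hx hy (Or.inl ⟨?_, ?_⟩)
    · rw [d1, d2]
    · rw [m1, m2]; exact hxy
  have brb : ∀ (q : ℕ) (i : Fin 3) (j : Fin p), ε * w ≤ ((lab (.r i) q).card : ℝ) →
      ε * w ≤ ((lab (.b j) (q + 1)).card : ℝ) → False := by
    intro q i j h1 h2
    obtain ⟨x, hx, y, hy, hxy⟩ := hHn _ _ h1 h2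
    rw [hlab] at hx hy
    obtain ⟨d1, m1⟩ := dm w q x x.isLt
    obtain ⟨d2, m2⟩ := dm w (q + 1) y y.isLt
    refine hind _ _ _ _ hx hy (Or.inl ⟨?_, ?_⟩)
    · rw [d1, d2]
    · rw [m1, m2]; exact hxy
  have baa : ∀ (q : ℕ) (i j : Fin p), q < 2 * B → i ≠ j → ε * w ≤ ((lab (.a i) q).card : ℝ) →
      ε * w ≤ ((lab (.a j) q).card : ℝ) → False := by
    intro q i j hq hij h1 h2
    obtain ⟨x, hx, y, hy, hxy⟩ := hHn _ _ h1 h2
    rw [hlab] at hx hy
    obtain ⟨d1, m1⟩ := dm w q x x.isLt
    obtain ⟨d2, m2⟩ := dm w q y y.isLt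
    refine hind _ _ _ _ hx hy (Or.inl ⟨hij, ?_, ?_, ?_⟩)
    · rw [d1, d2]
    · rw [d1]; exact hq
    · rw [m1, m2]; exact hxy
  have bbb : ∀ (q : ℕ) (i j : Fin p), i ≠ j → ε * w ≤ ((lab (.b i) (q + 1)).card : ℝ) →
      ε * w ≤ ((lab (.b j) (q + 1)).card : ℝ) → False := by
    intro q i j hij h1 h2
    obtain ⟨x, hx, y, hy, hxy⟩ := hHn _ _ h1 h2
    rw [hlab] at hx hy
    obtain ⟨d1, m1⟩ := dm w (q + 1) x x.isLt
    obtain ⟨d2, m2⟩ := dm w (q + 1) y y.isLt
    refine hind _ _ _ _ hx hy (Or.inl ⟨hij, ?_, ?_, ?_⟩)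
    · rw [d1, d2]
    · rw [d1]; omega
    · rw [m1, m2]; exact hxy
  have bab : ∀ (q : ℕ) (i j : Fin p), i ≠ j → ε * w ≤ ((lab (.a i) q).card : ℝ) →
      ε * w ≤ ((lab (.b j) (q + 1)).card : ℝ) → False := by
    intro q i j hij h1 h2
    obtain ⟨x, hx, y, hy, hxy⟩ := hHn _ _ h1 h2
    rw [hlab] at hx hy
    obtain ⟨d1, m1⟩ := dm w q x x.isLt
    obtain ⟨d2, m2⟩ := dm w (q + 1) y y.isLt
    refine hind _ _ _ _ hx hy (Or.inl (Or.inr ⟨hij, ?_, ?_⟩))
    · rw [d1, d2]
    · rw [m1, m2]; exact hxy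
  have hεw : 0 ≤ ε * w := mul_nonneg hε.le hw0
  -- one block
  have hblock : ∀ q ∈ range (2 * B), ∑ i : Fin 3, ((lab (.r i) q).card : ℝ) +
      ∑ i : Fin p, (((lab (.a i) q).card : ℝ) + (lab (.b i) (q + 1)).card) ≤
      w * (1 + (2 * p + 3) * ε) + ∑ i : Fin p, (if q ∈ K i then (w : ℝ) else 0) := by
    intro q hq
    have hq' : q < 2 * B := Finset.mem_range.mp hq
    have key := block_abs (G := Fin 3 ⊕ Fin p)
      (Sum.elim (fun i => ((lab (.r i) q).card : ℝ))
        (fun i => ((lab (.a i) q).card : ℝ) + (lab (.b i) (q + 1)).card))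
      (Sum.elim (fun _ => 1) (fun _ => 2))
      (Sum.elim (fun _ => 0) (fun i => if q ∈ K i then (w : ℝ) else 0))
      (Sum.elim (fun i => ε * w ≤ ((lab (.r i) q).card : ℝ))
        (fun i => ε * w ≤ ((lab (.a i) q).card : ℝ) ∨ ε * w ≤ ((lab (.b i) (q + 1)).card : ℝ)))
      w (ε * w) hw0 hεw ?_ ?_ ?_ ?_ ?_
    · simp only [Fintype.sum_sum_type, Sum.elim_inl, Sum.elim_inr, Finset.sum_const,
        Finset.card_univ, Fintype.card_fin, nsmul_eq_mul, mul_one, mul_zero, zero_add] at key
      push_cast at key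
      have e : w + (3 + (p : ℝ) * 2) * (ε * w) = w * (1 + (2 * p + 3) * ε) := by ring
      linarith
    · rintro (i | i)
      · simp
      · simp only [Sum.elim_inr]; split_ifs <;> simp
    · rintro (i | i) <;> simp
    · rintro (i | i)
      · simp only [Sum.elim_inl, add_zero]; exact hlw _ _
      · simp only [Sum.elim_inr]
        by_cases h1 : (lab (.a i) q).Nonempty
        · by_cases h2 : (lab (.b i) (q + 1)).Nonempty
          · have : q ∈ K i := by
              simp only [K, Finset.mem_filter]; exact ⟨hq, h1, h2⟩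
            rw [if_pos this]
            exact add_le_add (hlw _ _) (hlw _ _)
          · rw [Finset.not_nonempty_iff_eq_empty] at h2
            rw [h2]
            have h3 := hlw (.a i) q
            have h4 : (0 : ℝ) ≤ if q ∈ K i then (w : ℝ) else 0 := by split_ifs <;> simp
            simp only [Finset.card_empty, Nat.cast_zero, add_zero]
            linarith
        · rw [Finset.not_nonempty_iff_eq_empty] at h1
          rw [h1]
          have h3 := hlw (.b i) (q + 1)
          have h4 : (0 : ℝ) ≤ if q ∈ K i then (w : ℝ) else 0 := by split_ifs <;> simp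
          simp only [Finset.card_empty, Nat.cast_zero, zero_add]
          linarith
    · rintro (i | i) h
      · simp only [Sum.elim_inl, not_le] at h ⊢
        linarith
      · simp only [Sum.elim_inr, not_or, not_le] at h ⊢
        linarith [h.1, h.2]
    · rintro (i | i) (j | j) h1 h2
      · simp only [Sum.elim_inl] at h1 h2
        by_contra hne
        exact brr q i j (fun h => hne (by rw [h])) h1 h2
      · simp only [Sum.elim_inl, Sum.elim_inr] at h1 h2
        rcases h2 with h2 | h2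
        · exact (bra q i j h1 h2).elim
        · exact (brb q i j h1 h2).elim
      · simp only [Sum.elim_inl, Sum.elim_inr] at h1 h2
        rcases h1 with h1 | h1
        · exact (bra q j i h2 h1).elim
        · exact (brb q j i h2 h1).elim
      · simp only [Sum.elim_inr] at h1 h2
        by_contra hne
        have hij : i ≠ j := fun h => hne (by rw [h])
        rcases h1 with h1 | h1 <;> rcases h2 with h2 | h2
        · exact baa q i j hq' hij h1 h2
        · exact bab q i j hij h1 h2
        · exact bab q j i hij.symm h2 h1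
        · exact bbb q i j hij h1 h2
  -- the total
  have hsumK : ∑ q ∈ range (2 * B), ∑ i : Fin p, (if q ∈ K i then (w : ℝ) else 0) ≤ 2 * p * w := by
    rw [Finset.sum_comm]
    have h1 : ∀ i : Fin p, ∑ q ∈ range (2 * B), (if q ∈ K i then (w : ℝ) else 0) ≤ 2 * w := by
      intro i
      rw [← Finset.sum_filter]
      have : (range (2 * B)).filter (fun q => q ∈ K i) = K i := by
        ext q
        simp only [Finset.mem_filter, K]
        tauto
      rw [this, Finset.sum_const, nsmul_eq_mul]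
      have h2 : ((K i).card : ℝ) ≤ 2 := by exact_mod_cast hK i
      exact mul_le_mul_of_nonneg_right h2 hw0
    refine (Finset.sum_le_sum fun i _ => h1 i).trans ?_
    simp only [Finset.sum_const, Finset.card_univ, Fintype.card_fin, nsmul_eq_mul]
    apply le_of_eq; ring
  have hA : ∑ i : Fin p, ∑ z ∈ range (2 * B * w + w), F (.a i) z ≤
      ∑ q ∈ range (2 * B), ∑ i : Fin p, ((lab (.a i) q).card : ℝ) + p * w := by
    rw [Finset.sum_comm (s := range (2 * B))]
    refine (Finset.sum_le_sum fun i _ => hsa i).trans ?_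
    rw [Finset.sum_add_distrib]
    simp
  have hBs : ∑ i : Fin p, ∑ z ∈ range (2 * B * w + w), F (.b i) z ≤
      ∑ q ∈ range (2 * B), ∑ i : Fin p, ((lab (.b i) (q + 1)).card : ℝ) + p * w := by
    rw [Finset.sum_comm (s := range (2 * B))]
    refine (Finset.sum_le_sum fun i _ => hsb i).trans ?_
    rw [Finset.sum_add_distrib]
    simp
  have hR : ∑ i : Fin 3, ∑ z ∈ range (2 * B * w), F (.r i) z =
      ∑ q ∈ range (2 * B), ∑ i : Fin 3, ((lab (.r i) q).card : ℝ) := by
    rw [Finset.sum_comm (s := range (2 * B))]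
    exact Finset.sum_congr rfl fun i _ => hsr i
  have hall := Finset.sum_le_sum hblock
  simp only [Finset.sum_add_distrib] at hall
  rw [Finset.sum_const, Finset.card_range, nsmul_eq_mul] at hall
  push_cast at hall
  have e : (2 * (B : ℝ)) * (w * (1 + (2 * p + 3) * ε)) = 2 * B * w * (1 + (2 * p + 3) * ε) := by ring
  have e2 : (4 : ℝ) * p * w = 2 * p * w + (p * w + p * w) := by ring
  linarith

end Run7.h646.RO
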